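import Pool.Agent.Helper54.MB.NumRange

/-!
Growth of the group generated by the Laplacian, and the bound on the Laplacian.
-/

open Finset

namespace Pool.Agent.Helper54.MB

variable {n : ℕ}

/-- `exp(zΔ) f`. -/
noncomputable def evo (c : Finset (Fin n) → ℂ) (z : ℂ) (x : Fin n → Bool) : ℂ :=
  ∑ S, (c S * Complex.exp (z * (S.card : ℂ))) * ch S x

lemma evo_mem {d : ℕ} (c : Finset (Fin n) → ℂ) (hc : ∀ S, d < S.card → c S = 0) (z : ℂ) :
    evo c z ∈ D n d := by
  apply sum_mem_D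
  intro S hS
  rw [hc S hS, zero_mul]

lemma hasDerivAt_evo (c : Finset (Fin n) → ℂ) (z : ℂ) (x : Fin n → Bool) :
    HasDerivAt (fun z => evo c z x) (lap (evo c z) x) z := by
  have h : lap (evo c z) x =
      ∑ S, (c S * (Complex.exp (z * (S.card : ℂ)) * (1 * (S.card : ℂ)))) * ch S x := by
    have h1 := lap_sum (fun S => c S * Complex.exp (z * (S.card : ℂ))) x
    have h2 : lap (evo c z) x =
      lap (fun x => ∑ S, (c S * Complex.exp (z * (S.card : ℂ))) * ch S x) x := rfl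
    rw [h2, h1]
    refine sum_congr rfl fun S _ => by ring
  rw [h]
  unfold evo
  apply HasDerivAt.fun_sum
  intro S _
  apply HasDerivAt.mul_const
  apply HasDerivAt.const_mul
  apply HasDerivAt.cexp
  exact (hasDerivAt_id z).mul_const _

lemma hasDerivAt_evo_line (c : Finset (Fin n) → ℂ) (z : ℂ) (x : Fin n → Bool) (t : ℝ) :
    HasDerivAt (fun t : ℝ => evo c ((t : ℂ) * z) x) (z * lap (evo c ((t : ℂ) * z)) x) t := by
  have h1 := hasDerivAt_evo c ((t : ℂ) * z) x
  have h2 : HasDerivAt (fun t : ℝ => (t : ℂ) * z) z t := by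
    have h3 : HasDerivAt (fun t : ℝ => (t : ℂ)) 1 t := Complex.ofRealCLM.hasDerivAt
    simpa using h3.mul_const z
  have h4 := HasDerivAt.comp t h1 h2
  rw [mul_comm]
  exact h4

/-- `∑_x |u(x)|^{2m}`. -/
noncomputable def Nm (m : ℕ) (u : (Fin n → Bool) → ℂ) : ℝ := ∑ x, ‖u x‖ ^ (2 * m)

lemma Nm_nonneg (m : ℕ) (u : (Fin n → Bool) → ℂ) : 0 ≤ Nm m u :=
  sum_nonneg fun x _ => by positivity

lemma hasDerivAt_Nm (m : ℕ) (hm : 1 ≤ m) (c : Finset (Fin n) → ℂ) (z : ℂ) (t : ℝ) :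
    HasDerivAt (fun t : ℝ => Nm m (evo c ((t : ℂ) * z)))
      (2 * m * (z * ∑ x, phi m (evo c ((t : ℂ) * z) x) * lap (evo c ((t : ℂ) * z)) x).re) t := by
  unfold Nm
  have h : ∀ x : Fin n → Bool, HasDerivAt (fun t : ℝ => ‖evo c ((t : ℂ) * z) x‖ ^ (2 * m))
      (2 * m * (z * (phi m (evo c ((t : ℂ) * z) x) * lap (evo c ((t : ℂ) * z)) x)).re) t := by
    intro x
    have h1 := (hasDerivAt_evo_line c z x t).norm_sq
    have h2 := h1.pow m
    have h3 : (fun t : ℝ => ‖evo c ((t : ℂ) * z) x‖ ^ (2 * m)) =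
        (fun t : ℝ => (‖evo c ((t : ℂ) * z) x‖ ^ 2) ^ m) := by
      funext t; rw [pow_mul]
    rw [h3]
    refine h2.congr_deriv ?_
    set w := evo c ((t : ℂ) * z) x with hw
    set l := lap (evo c ((t : ℂ) * z)) x with hl
    have h4 : (z * (phi m w * l)).re = (‖w‖ ^ 2) ^ (m - 1) * (inner ℝ w (z * l)) := by
      rw [Complex.inner]
      have h5 : phi m w = (((‖w‖ ^ 2) ^ (m - 1) : ℝ) : ℂ) * (starRingEnd ℂ) w := by
        unfold phi
        have : 2 * m - 2 = 2 * (m - 1) := by omega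
        rw [this, pow_mul]
        push_cast
        rfl
      rw [h5]
      have h6 : z * ((((‖w‖ ^ 2) ^ (m - 1) : ℝ) : ℂ) * (starRingEnd ℂ) w * l) =
          (((‖w‖ ^ 2) ^ (m - 1) : ℝ) : ℂ) * ((starRingEnd ℂ) w * (z * l)) := by ring
      rw [h6, Complex.re_ofReal_mul]
      first
        | rfl
        | (rw [mul_comm ((starRingEnd ℂ) w) (z * l)])
    rw [h4]
    ring
  have h7 := HasDerivAt.fun_sum (u := (univ : Finset (Fin n → Bool))) (fun x _ => h x)
  refine h7.congr_deriv ?_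
  rw [← mul_sum]
  congr 1
  rw [mul_sum, Complex.re_sum]

lemma Nm_growth {m d : ℕ} (hm : Odd m) (c : Finset (Fin n) → ℂ)
    (hc : ∀ S, d < S.card → c S = 0) (z : ℂ) :
    Nm m (evo c z) ≤ Real.exp (2 * m * (4 * m * d) * ‖z‖) * Nm m (evo c 0) := by
  have hm1 : 1 ≤ m := hm.pos
  set K : ℝ := 2 * m * (4 * m * d) * ‖z‖ with hK
  set g : ℝ → ℝ := fun t => Nm m (evo c ((t : ℂ) * z)) * Real.exp (-K * t) with hg
  have hder : ∀ t : ℝ, HasDerivAt g
      ((2 * m * (z * ∑ x, phi m (evo c ((t : ℂ) * z) x) * lap (evo c ((t : ℂ) * z)) x).re) *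
        Real.exp (-K * t) + Nm m (evo c ((t : ℂ) * z)) * (Real.exp (-K * t) * (-K))) t := by
    intro t
    have h1 := hasDerivAt_Nm m hm1 c z t
    have h2 : HasDerivAt (fun t : ℝ => Real.exp (-K * t)) (Real.exp (-K * t) * (-K)) t := by
      have h3 : HasDerivAt (fun t : ℝ => -K * t) (-K) t := by
        simpa using (hasDerivAt_id t).const_mul (-K)
      exact h3.exp
    exact h1.mul h2
  have hanti : Antitone g := by
    apply antitone_of_deriv_nonpos (fun t => (hder t).differentiableAt)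
    intro t
    rw [(hder t).deriv]
    have h4 : (z * ∑ x, phi m (evo c ((t : ℂ) * z) x) * lap (evo c ((t : ℂ) * z)) x).re ≤
        ‖z‖ * (4 * m * d * Nm m (evo c ((t : ℂ) * z))) := by
      refine (Complex.re_le_norm _).trans ?_
      rw [norm_mul]
      exact mul_le_mul_of_nonneg_left (num_range hm (evo_mem c hc _)) (norm_nonneg z)
    have h5 : 0 < Real.exp (-K * t) := Real.exp_pos _
    have h6 : (2 * m * (z * ∑ x, phi m (evo c ((t : ℂ) * z) x) * lap (evo c ((t : ℂ) * z)) x).re) ≤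
        K * Nm m (evo c ((t : ℂ) * z)) := by
      have h7 : (0 : ℝ) ≤ 2 * m := by positivity
      calc (2 * m * (z * ∑ x, phi m (evo c ((t : ℂ) * z) x) * lap (evo c ((t : ℂ) * z)) x).re)
          ≤ 2 * m * (‖z‖ * (4 * m * d * Nm m (evo c ((t : ℂ) * z)))) :=
            mul_le_mul_of_nonneg_left h4 h7
        _ = K * Nm m (evo c ((t : ℂ) * z)) := by rw [hK]; ring
    nlinarith
  have h8 := hanti (zero_le_one (α := ℝ))
  simp only [hg, Complex.ofReal_one, Complex.ofReal_zero, zero_mul, one_mul, mul_one, mul_zero,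
    Real.exp_zero] at h8
  have h9 : Nm m (evo c z) = (Nm m (evo c z) * Real.exp (-K)) * Real.exp K := by
    rw [mul_assoc, ← Real.exp_add]; simp
  rw [h9, mul_comm]
  exact mul_le_mul_of_nonneg_left h8 (Real.exp_pos _).le

end Pool.Agent.Helper54.MB
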