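import Pool.Agent.Helper54.MB.Growth

/-!
The Cauchy estimate and the final bound.
-/

open Finset
open scoped ENNReal

namespace Pool.Agent.Helper54.MB

variable {n : ℕ}

lemma norm_toLp_pow (m : ℕ) (hm : 1 ≤ m) (u : (Fin n → Bool) → ℂ) :
    ‖(WithLp.toLp ((2 * m : ℕ) : ℝ≥0∞) u : PiLp ((2 * m : ℕ) : ℝ≥0∞)
      (fun _ : (Fin n → Bool) => ℂ))‖ ^ (2 * m) = Nm m u := by
  have hp : 0 < (((2 * m : ℕ) : ℝ≥0∞)).toReal := by
    rw [ENNReal.toReal_natCast]
    exact_mod_cast (by omega : 0 < 2 * m)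
  rw [PiLp.norm_eq_sum hp]
  rw [ENNReal.toReal_natCast]
  have h1 : ∀ x : Fin n → Bool, ‖(WithLp.toLp ((2 * m : ℕ) : ℝ≥0∞) u : PiLp ((2 * m : ℕ) : ℝ≥0∞)
      (fun _ : (Fin n → Bool) => ℂ)) x‖ ^ (((2 * m : ℕ)) : ℝ) = ‖u x‖ ^ (2 * m) := by
    intro x
    rw [Real.rpow_natCast]
  simp only [h1]
  rw [← Real.rpow_natCast, ← Real.rpow_mul (sum_nonneg fun x _ => by positivity)]
  have h2 : (1 / ((2 * m : ℕ) : ℝ)) * ((2 * m : ℕ) : ℝ) = 1 := by
    have : ((2 * m : ℕ) : ℝ) ≠ 0 := by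
      exact_mod_cast (by omega : 2 * m ≠ 0)
    field_simp
  rw [h2, Real.rpow_one]
  rfl

theorem main_bound {m d : ℕ} (hm : Odd m) (hd : 1 ≤ d) (c : Finset (Fin n) → ℂ)
    (hc : ∀ S, d < S.card → c S = 0) :
    Nm m (lap (evo c 0)) ≤ (4 * Real.exp 1 * m * d) ^ (2 * m) * Nm m (evo c 0) := by
  have hm1 : 1 ≤ m := hm.pos
  haveI : Fact ((1 : ℝ≥0∞) ≤ ((2 * m : ℕ) : ℝ≥0∞)) :=
    ⟨by exact_mod_cast (by omega : 1 ≤ 2 * m)⟩
  let p : ℝ≥0∞ := ((2 * m : ℕ) : ℝ≥0∞)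
  let F : ℂ → PiLp p (fun _ : (Fin n → Bool) => ℂ) := fun z => WithLp.toLp p (evo c z)
  have hF : ∀ z, HasDerivAt F (WithLp.toLp p (lap (evo c z))) z := by
    intro z
    have h1 : HasDerivAt (fun z => evo c z) (lap (evo c z)) z := by
      rw [hasDerivAt_pi]
      intro x
      exact hasDerivAt_evo c z x
    have h2 := ((PiLp.continuousLinearEquiv p ℂ
      (fun _ : (Fin n → Bool) => ℂ)).symm.toContinuousLinearMap.hasFDerivAt
        (x := evo c z)).comp_hasDerivAt z h1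
    exact h2
  have hmR : (0 : ℝ) < m := by exact_mod_cast hm1
  have hdR : (0 : ℝ) < d := by exact_mod_cast hd
  set R : ℝ := 1 / (4 * m * d) with hR
  have hRpos : 0 < R := by positivity
  have hbd : ∀ z ∈ Metric.sphere (0 : ℂ) R, ‖F z‖ ≤ Real.exp 1 * ‖F 0‖ := by
    intro z hz
    have hz' : ‖z‖ = R := by simpa using hz
    have h1 := Nm_growth hm c hc z
    have h2 : 2 * (m : ℝ) * (4 * m * d) * ‖z‖ = 2 * m := by
      rw [hz', hR]; field_simp
    rw [h2] at h1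
    have h3 : ‖F z‖ ^ (2 * m) ≤ (Real.exp 1 * ‖F 0‖) ^ (2 * m) := by
      rw [mul_pow]
      have h4 : ‖F z‖ ^ (2 * m) = Nm m (evo c z) := norm_toLp_pow m hm1 _
      have h5 : ‖F 0‖ ^ (2 * m) = Nm m (evo c 0) := norm_toLp_pow m hm1 _
      rw [h4, h5]
      have h6 : Real.exp 1 ^ (2 * m) = Real.exp (2 * m) := by
        rw [← Real.exp_nat_mul]
        push_cast
        rw [mul_one]
      rw [h6]
      exact h1
    exact le_of_pow_le_pow_left₀ (by omega) (by positivity) h3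
  have hdiff : DiffContOnCl ℂ F (Metric.ball 0 R) :=
    (Differentiable.diffContOnCl (fun z => (hF z).differentiableAt))
  have hcauchy := Complex.norm_deriv_le_of_forall_mem_sphere_norm_le hRpos hdiff hbd
  rw [(hF 0).deriv] at hcauchy
  have h7 : Real.exp 1 * ‖F 0‖ / R = (4 * Real.exp 1 * m * d) * ‖F 0‖ := by
    rw [hR]; field_simp
  rw [h7] at hcauchy
  have h8 : ‖(WithLp.toLp p (lap (evo c 0)) : PiLp p (fun _ : (Fin n → Bool) => ℂ))‖ ^ (2 * m) ≤
      ((4 * Real.exp 1 * m * d) * ‖F 0‖) ^ (2 * m) :=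
    pow_le_pow_left₀ (norm_nonneg _) hcauchy _
  rw [mul_pow] at h8
  have h9 : ‖F 0‖ ^ (2 * m) = Nm m (evo c 0) := norm_toLp_pow m hm1 _
  have h10 : ‖(WithLp.toLp p (lap (evo c 0)) : PiLp p (fun _ : (Fin n → Bool) => ℂ))‖ ^ (2 * m) =
      Nm m (lap (evo c 0)) := norm_toLp_pow m hm1 _
  rw [h9, h10] at h8
  exact h8

/-- The bound for complex coefficients. -/
theorem complex_bound {m d : ℕ} (hm : Odd m) (c : Finset (Fin n) → ℂ)
    (hc : ∀ S, d < S.card → c S = 0) :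
    ∑ x, ‖∑ S, (S.card : ℂ) * c S * ch S x‖ ^ (2 * m) ≤
      (4 * Real.exp 1 * m * d) ^ (2 * m) * ∑ x, ‖∑ S, c S * ch S x‖ ^ (2 * m) := by
  have hm1 : 1 ≤ m := hm.pos
  have e0 : ∀ x, evo c 0 x = ∑ S, c S * ch S x := by
    intro x
    unfold evo
    simp
  have e1 : ∀ x, lap (evo c 0) x = ∑ S, (S.card : ℂ) * c S * ch S x := by
    intro x
    have h1 : evo c 0 = fun x => ∑ S, c S * ch S x := funext e0
    rw [h1, lap_sum]
  rcases Nat.eq_zero_or_pos d with h0 | hd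
  · have h2 : ∀ x : Fin n → Bool, ∑ S, (S.card : ℂ) * c S * ch S x = 0 := by
      intro x
      apply sum_eq_zero
      intro S _
      rcases Nat.eq_zero_or_pos S.card with h3 | h3
      · rw [h3]; simp
      · rw [hc S (by omega)]; simp
    simp only [h2, norm_zero]
    rw [zero_pow (by omega), sum_const_zero, h0]
    have : (4 * Real.exp 1 * (m : ℝ) * ((0 : ℕ) : ℝ)) ^ (2 * m) = 0 := by
      rw [Nat.cast_zero, mul_zero, zero_pow (by omega)]
    rw [this, zero_mul]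
  · have h := main_bound hm hd c hc
    unfold Nm at h
    simp only [e0, e1] at h
    exact h

end Pool.Agent.Helper54.MB
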