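import Pool.Agent.Helper54.MB.Cube

/-!
The numerical range of the Laplacian on low degree functions in `L^{2m}`, `m` odd.
-/

open Finset

namespace Pool.Agent.Helper54.MB

variable {n : ℕ}

/-- `ψ(a) = |a|^{m-1} a`. -/
noncomputable def psi (m : ℕ) (a : ℂ) : ℂ := (‖a‖ : ℂ) ^ (m - 1) * a

/-- `φ(a) = |a|^{2m-2} conj a`. -/
noncomputable def phi (m : ℕ) (a : ℂ) : ℂ := (‖a‖ : ℂ) ^ (2 * m - 2) * star a

lemma norm_psi (m : ℕ) (hm : 1 ≤ m) (a : ℂ) : ‖psi m a‖ = ‖a‖ ^ m := by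
  unfold psi
  rw [norm_mul, norm_pow, Complex.norm_real, norm_norm, ← pow_succ]
  congr 1
  omega

lemma norm_phi_sub_aux (m : ℕ) (hm : 1 ≤ m) (a b : ℂ) (hab : ‖b‖ ≤ ‖a‖) :
    ‖phi m a - phi m b‖ ≤ 2 * ‖a‖ ^ (m - 1) * ‖psi m a - psi m b‖ := by
  obtain ⟨j, rfl⟩ : ∃ j, m = j + 1 := ⟨m - 1, by omega⟩
  have h1 : 2 * (j + 1) - 2 = j + j := by omega
  simp only [phi, psi, h1, Nat.add_sub_cancel]
  set r := ‖a‖ with hr
  set s := ‖b‖ with hs
  have hr0 : 0 ≤ r := norm_nonneg a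
  have hs0 : 0 ≤ s := norm_nonneg b
  have hsr : s ^ j ≤ r ^ j := pow_le_pow_left₀ hs0 hab j
  have e1 : (r : ℂ) ^ (j + j) * star a - (s : ℂ) ^ (j + j) * star b =
      (r : ℂ) ^ j * star ((r : ℂ) ^ j * a - (s : ℂ) ^ j * b) +
        ((r ^ j - s ^ j : ℝ) : ℂ) * ((s : ℂ) ^ j * star b) := by
    have h2 : star ((r : ℂ) ^ j * a - (s : ℂ) ^ j * b) =
        (r : ℂ) ^ j * star a - (s : ℂ) ^ j * star b := by
      simp
    rw [h2]
    push_cast
    ring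
  rw [e1]
  have e2 : ‖(r : ℂ) ^ j * star ((r : ℂ) ^ j * a - (s : ℂ) ^ j * b)‖ =
      r ^ j * ‖(r : ℂ) ^ j * a - (s : ℂ) ^ j * b‖ := by
    rw [norm_mul, norm_star, norm_pow, Complex.norm_real, Real.norm_of_nonneg hr0]
  have e3 : ‖((r ^ j - s ^ j : ℝ) : ℂ) * ((s : ℂ) ^ j * star b)‖ = (r ^ j - s ^ j) * s ^ (j + 1) := by
    rw [norm_mul, Complex.norm_real, Real.norm_of_nonneg (sub_nonneg.2 hsr), norm_mul, norm_star,
      norm_pow, Complex.norm_real, Real.norm_of_nonneg hs0, ← hs, pow_succ]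
  have h4 : r ^ (j + 1) - s ^ (j + 1) ≤ ‖(r : ℂ) ^ j * a - (s : ℂ) ^ j * b‖ := by
    have h5 := norm_sub_norm_le ((r : ℂ) ^ j * a) ((s : ℂ) ^ j * b)
    rw [norm_mul, norm_mul, norm_pow, norm_pow, Complex.norm_real, Complex.norm_real,
      Real.norm_of_nonneg hr0, Real.norm_of_nonneg hs0, ← hr, ← hs, ← pow_succ, ← pow_succ] at h5
    exact h5
  have h6 : (r ^ j - s ^ j) * s ^ (j + 1) ≤ r ^ j * (r ^ (j + 1) - s ^ (j + 1)) := by
    have hsj : 0 ≤ s ^ j := pow_nonneg hs0 j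
    have hrj : 0 ≤ r ^ j := pow_nonneg hr0 j
    rw [pow_succ, pow_succ]
    -- `r^j s^(j+1) - s^(2j+1) ≤ r^(2j+1) - r^j s^(j+1)`
    nlinarith [mul_nonneg (mul_nonneg hrj (sub_nonneg.2 hsr)) hr0,
      mul_nonneg (mul_nonneg hrj hrj) (sub_nonneg.2 hab),
      mul_nonneg (sq_nonneg (r ^ j - s ^ j)) hs0, mul_nonneg (mul_nonneg hrj hsj) (sub_nonneg.2 hab)]
  have hrj : 0 ≤ r ^ j := pow_nonneg hr0 j
  calc ‖(r : ℂ) ^ j * star ((r : ℂ) ^ j * a - (s : ℂ) ^ j * b) +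
        ((r ^ j - s ^ j : ℝ) : ℂ) * ((s : ℂ) ^ j * star b)‖
      ≤ r ^ j * ‖(r : ℂ) ^ j * a - (s : ℂ) ^ j * b‖ + (r ^ j - s ^ j) * s ^ (j + 1) := by
        rw [← e2, ← e3]; exact norm_add_le _ _
    _ ≤ r ^ j * ‖(r : ℂ) ^ j * a - (s : ℂ) ^ j * b‖ + r ^ j * (r ^ (j + 1) - s ^ (j + 1)) := by
        linarith
    _ ≤ r ^ j * ‖(r : ℂ) ^ j * a - (s : ℂ) ^ j * b‖ +
        r ^ j * ‖(r : ℂ) ^ j * a - (s : ℂ) ^ j * b‖ := by
        have := mul_le_mul_of_nonneg_left h4 hrj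
        linarith
    _ = 2 * r ^ j * ‖(r : ℂ) ^ j * a - (s : ℂ) ^ j * b‖ := by ring

lemma norm_sub_aux (m : ℕ) (a b : ℂ) (hab : ‖b‖ ≤ ‖a‖) :
    ‖a‖ ^ (m - 1) * ‖a - b‖ ≤ 2 * ‖psi m a - psi m b‖ := by
  unfold psi
  set j := m - 1
  set r := ‖a‖ with hr
  set s := ‖b‖ with hs
  have hr0 : 0 ≤ r := norm_nonneg a
  have hs0 : 0 ≤ s := norm_nonneg b
  have hsr : s ^ j ≤ r ^ j := pow_le_pow_left₀ hs0 hab j
  have hsj : 0 ≤ s ^ j := pow_nonneg hs0 j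
  have hrj : 0 ≤ r ^ j := pow_nonneg hr0 j
  rcases eq_or_ne (a - b) 0 with h0 | h0
  · rw [h0, norm_zero, mul_zero]; positivity
  have hpos : 0 < ‖a - b‖ := norm_pos_iff.2 h0
  -- real part of the product with `conj (a - b)`
  have key : (1 / 2) * (r ^ j + s ^ j) * ‖a - b‖ ^ 2 + (1 / 2) * (r ^ j - s ^ j) * (r ^ 2 - s ^ 2) =
      (((r : ℂ) ^ j * a - (s : ℂ) ^ j * b) * star (a - b)).re := by
    have h1 : ‖a - b‖ ^ 2 = (a - b).re * (a - b).re + (a - b).im * (a - b).im := by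
      rw [← Complex.normSq_apply, Complex.normSq_eq_norm_sq]
    have h2 : r ^ 2 = a.re * a.re + a.im * a.im := by
      rw [hr, ← Complex.normSq_apply, Complex.normSq_eq_norm_sq]
    have h3 : s ^ 2 = b.re * b.re + b.im * b.im := by
      rw [hs, ← Complex.normSq_apply, Complex.normSq_eq_norm_sq]
    have h4 : ((r : ℂ) ^ j * a - (s : ℂ) ^ j * b) = (((r ^ j : ℝ) : ℂ) * a - ((s ^ j : ℝ) : ℂ) * b) := by
      push_cast; rfl
    rw [h4]
    have h5 : star (a - b) = (starRingEnd ℂ) (a - b) := rfl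
    rw [h5, h1, h2, h3]
    simp only [Complex.mul_re, Complex.sub_re, Complex.sub_im, Complex.mul_im, Complex.ofReal_re,
      Complex.ofReal_im, Complex.conj_re, Complex.conj_im]
    ring
  have h6 : (((r : ℂ) ^ j * a - (s : ℂ) ^ j * b) * star (a - b)).re ≤
      ‖(r : ℂ) ^ j * a - (s : ℂ) ^ j * b‖ * ‖a - b‖ := by
    have := Complex.re_le_norm (((r : ℂ) ^ j * a - (s : ℂ) ^ j * b) * star (a - b))
    rwa [norm_mul, norm_star] at this
  have h7 : 0 ≤ (1 / 2) * (r ^ j - s ^ j) * (r ^ 2 - s ^ 2) := by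
    have : s ^ 2 ≤ r ^ 2 := pow_le_pow_left₀ hs0 hab 2
    have h8 := mul_nonneg (sub_nonneg.2 hsr) (sub_nonneg.2 this)
    linarith
  have h9 : (1 / 2) * r ^ j * ‖a - b‖ ^ 2 ≤ ‖(r : ℂ) ^ j * a - (s : ℂ) ^ j * b‖ * ‖a - b‖ := by
    have : 0 ≤ s ^ j * ‖a - b‖ ^ 2 := by positivity
    nlinarith
  have h10 : (1 / 2) * r ^ j * ‖a - b‖ ≤ ‖(r : ℂ) ^ j * a - (s : ℂ) ^ j * b‖ := by
    have h11 : ((1 / 2) * r ^ j * ‖a - b‖) * ‖a - b‖ ≤
        ‖(r : ℂ) ^ j * a - (s : ℂ) ^ j * b‖ * ‖a - b‖ := by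
      calc ((1 / 2) * r ^ j * ‖a - b‖) * ‖a - b‖ = (1 / 2) * r ^ j * ‖a - b‖ ^ 2 := by ring
        _ ≤ _ := h9
    exact le_of_mul_le_mul_right h11 hpos
  linarith

/-- The two-point inequality. -/
lemma two_point (m : ℕ) (hm : 1 ≤ m) (a b : ℂ) :
    ‖phi m a - phi m b‖ * ‖a - b‖ ≤ 4 * ‖psi m a - psi m b‖ ^ 2 := by
  have main : ∀ a b : ℂ, ‖b‖ ≤ ‖a‖ →
      ‖phi m a - phi m b‖ * ‖a - b‖ ≤ 4 * ‖psi m a - psi m b‖ ^ 2 := by
    intro a b hab
    have h1 := norm_phi_sub_aux m hm a b hab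
    have h2 := norm_sub_aux m a b hab
    calc ‖phi m a - phi m b‖ * ‖a - b‖
        ≤ (2 * ‖a‖ ^ (m - 1) * ‖psi m a - psi m b‖) * ‖a - b‖ :=
          mul_le_mul_of_nonneg_right h1 (norm_nonneg _)
      _ = (2 * ‖psi m a - psi m b‖) * (‖a‖ ^ (m - 1) * ‖a - b‖) := by ring
      _ ≤ (2 * ‖psi m a - psi m b‖) * (2 * ‖psi m a - psi m b‖) :=
          mul_le_mul_of_nonneg_left h2 (by positivity)
      _ = 4 * ‖psi m a - psi m b‖ ^ 2 := by ring
  rcases le_total ‖b‖ ‖a‖ with h | h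
  · exact main a b h
  · have := main b a h
    rw [norm_sub_rev (phi m a), norm_sub_rev a b, norm_sub_rev (psi m a)]
    exact this

/-- For odd `m`, `ψ ∘ u` has degree at most `m d`. -/
lemma psi_mem_D {m d : ℕ} (hm : Odd m) {u : (Fin n → Bool) → ℂ} (hu : u ∈ D n d) :
    (fun x => psi m (u x)) ∈ D n (m * d) := by
  obtain ⟨j, rfl⟩ := hm
  have h : (fun x => psi (2 * j + 1) (u x)) = (u * star u) ^ j * u := by
    funext x
    simp only [psi, Nat.add_sub_cancel, Pi.mul_apply, Pi.pow_apply, Pi.star_apply]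
    congr 1
    rw [pow_mul]
    congr 1
    have : star (u x) = (starRingEnd ℂ) (u x) := rfl
    rw [this, Complex.mul_conj']
  rw [h]
  have h1 := pow_mem_D (mul_mem_D hu (star_mem_D hu)) j
  have h2 := mul_mem_D h1 hu
  have h3 : (d + d) * j + d = (2 * j + 1) * d := by ring
  rw [← h3]
  exact h2

/-- The Laplacian. -/
noncomputable def lap (u : (Fin n → Bool) → ℂ) (x : Fin n → Bool) : ℂ :=
  ∑ i, (1 / 2) * (u x - u (flp i x))

lemma lap_sum (c : Finset (Fin n) → ℂ) (x : Fin n → Bool) :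
    lap (fun x => ∑ S, c S * ch S x) x = ∑ S, (S.card : ℂ) * c S * ch S x := by
  unfold lap
  have h : ∀ i, (1 / 2 : ℂ) * ((∑ S, c S * ch S x) - ∑ S, c S * ch S (flp i x)) =
      ∑ S, if i ∈ S then c S * ch S x else 0 := by
    intro i
    rw [← sum_sub_distrib, mul_sum]
    refine sum_congr rfl fun S _ => ?_
    rw [ch_flp]
    split_ifs <;> ring
  simp only [h]
  rw [sum_comm]
  refine sum_congr rfl fun S _ => ?_
  rw [sum_ite_mem, univ_inter, sum_const, nsmul_eq_mul]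
  ring

/-- The numerical range of the Laplacian on functions of degree at most `d` in `L^{2m}`,
`m` odd. -/
lemma num_range {m d : ℕ} (hm : Odd m) {u : (Fin n → Bool) → ℂ} (hu : u ∈ D n d) :
    ‖∑ x, phi m (u x) * lap u x‖ ≤ 4 * m * d * ∑ x, ‖u x‖ ^ (2 * m) := by
  have hm1 : 1 ≤ m := hm.pos
  -- symmetrize
  have h1 : ∑ x, phi m (u x) * lap u x =
      (1 / 4) * ∑ i, ∑ x, (phi m (u x) - phi m (u (flp i x))) * (u x - u (flp i x)) := by
    have h2 : ∀ i, ∑ x, phi m (u (flp i x)) * (u x - u (flp i x)) =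
        - ∑ x, phi m (u x) * (u x - u (flp i x)) := by
      intro i
      have h3 := sum_flp i (fun x => phi m (u x) * (u (flp i x) - u x))
      simp only [flp_flp] at h3
      rw [h3, ← sum_neg_distrib]
      refine sum_congr rfl fun x _ => by ring
    have h4 : ∀ i, ∑ x, (phi m (u x) - phi m (u (flp i x))) * (u x - u (flp i x)) =
        2 * ∑ x, phi m (u x) * (u x - u (flp i x)) := by
      intro i
      have : ∀ x, (phi m (u x) - phi m (u (flp i x))) * (u x - u (flp i x)) =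
          phi m (u x) * (u x - u (flp i x)) - phi m (u (flp i x)) * (u x - u (flp i x)) := by
        intro x; ring
      simp only [this]
      rw [sum_sub_distrib, h2]
      ring
    simp only [h4]
    unfold lap
    simp only [mul_sum]
    rw [sum_comm]
    refine sum_congr rfl fun i _ => sum_congr rfl fun x _ => ?_
    ring
  rw [h1, norm_mul]
  have h5 : ‖∑ i, ∑ x, (phi m (u x) - phi m (u (flp i x))) * (u x - u (flp i x))‖ ≤
      ∑ i, ∑ x, 4 * ‖psi m (u x) - psi m (u (flp i x))‖ ^ 2 := by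
    refine (norm_sum_le _ _).trans (sum_le_sum fun i _ => ?_)
    refine (norm_sum_le _ _).trans (sum_le_sum fun x _ => ?_)
    rw [norm_mul]
    exact two_point m hm1 _ _
  have h6 := dirichlet_le (psi_mem_D hm hu)
  simp only [← mul_sum] at h5
  have h7 : ∀ x, ‖psi m (u x)‖ ^ 2 = ‖u x‖ ^ (2 * m) := by
    intro x
    rw [norm_psi m hm1, ← pow_mul, mul_comm]
  simp only [h7] at h6
  have h8 : ‖(1 / 4 : ℂ)‖ = 1 / 4 := by norm_num
  rw [h8]
  push_cast at h6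
  linarith

end Pool.Agent.Helper54.MB
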