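import Mathlib

/-!
Walsh characters on the discrete cube, Parseval, the Dirichlet form of a polynomial of degree `k`.
-/

open Finset

namespace Pool.Agent.Helper54.MB

variable {n : ℕ}

/-- The Walsh character `x^S`, complex valued. -/
noncomputable def ch (S : Finset (Fin n)) (x : Fin n → Bool) : ℂ :=
  ∏ i ∈ S, (if x i then (1 : ℂ) else -1)

/-- Flip the `i`-th coordinate. -/
def flp (i : Fin n) (x : Fin n → Bool) : Fin n → Bool := Function.update x i (!x i)

lemma flp_flp (i : Fin n) (x : Fin n → Bool) : flp i (flp i x) = x := by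
  unfold flp
  simp

/-- Flipping as a permutation. -/
def flpEquiv (i : Fin n) : Equiv.Perm (Fin n → Bool) where
  toFun := flp i
  invFun := flp i
  left_inv := flp_flp i
  right_inv := flp_flp i

lemma sum_flp {M : Type*} [AddCommMonoid M] (i : Fin n) (g : (Fin n → Bool) → M) :
    ∑ x, g (flp i x) = ∑ x, g x :=
  Equiv.sum_comp (flpEquiv i) g

lemma ch_flp (S : Finset (Fin n)) (i : Fin n) (x : Fin n → Bool) :
    ch S (flp i x) = if i ∈ S then - ch S x else ch S x := by
  unfold ch flp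
  by_cases h : i ∈ S
  · rw [if_pos h, ← Finset.mul_prod_erase S _ h, ← Finset.mul_prod_erase S _ h]
    have h1 : ∏ j ∈ S.erase i, (if Function.update x i (!x i) j then (1 : ℂ) else -1) =
        ∏ j ∈ S.erase i, (if x j then (1 : ℂ) else -1) := by
      refine prod_congr rfl fun j hj => ?_
      rw [Function.update_of_ne (ne_of_mem_erase hj)]
    rw [h1, Function.update_self]
    cases x i <;> simp
  · rw [if_neg h]
    refine prod_congr rfl fun j hj => ?_
    have hne : j ≠ i := by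
      rintro rfl
      exact h hj
    rw [Function.update_of_ne hne]

lemma ch_sq (S : Finset (Fin n)) (x : Fin n → Bool) : ch S x * ch S x = 1 := by
  unfold ch
  rw [← prod_mul_distrib]
  apply prod_eq_one
  intro i _
  cases x i <;> simp

lemma star_ch (S : Finset (Fin n)) (x : Fin n → Bool) : star (ch S x) = ch S x := by
  unfold ch
  rw [star_prod]
  refine prod_congr rfl fun i _ => ?_
  cases x i <;> simp

lemma sum_ch_mul (S T : Finset (Fin n)) :
    ∑ x, ch S x * ch T x = if S = T then (2 : ℂ) ^ n else 0 := by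
  by_cases h : S = T
  · subst h
    simp only [ch_sq, if_true]
    simp
  · rw [if_neg h]
    have hne : ∃ i, ¬ (i ∈ S ↔ i ∈ T) := by
      by_contra hcon
      push Not at hcon
      exact h (Finset.ext hcon)
    obtain ⟨i, hi⟩ := hne
    have h1 := sum_flp i (fun x => ch S x * ch T x)
    have h2 : ∀ x, ch S (flp i x) * ch T (flp i x) = - (ch S x * ch T x) := by
      intro x
      rw [ch_flp, ch_flp]
      by_cases hS : i ∈ S
      · have hT : i ∉ T := fun hT => hi ⟨fun _ => hT, fun _ => hS⟩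
        rw [if_pos hS, if_neg hT]; ring
      · have hT : i ∈ T := by
          by_contra hT
          exact hi ⟨fun h => absurd h hS, fun h => absurd h hT⟩
        rw [if_neg hS, if_pos hT]; ring
    simp only [h2, sum_neg_distrib] at h1
    have h3 : (2 : ℂ) * ∑ x, ch S x * ch T x = 0 := by
      linear_combination -h1
    simpa using h3

/-- Parseval. -/
lemma parseval (a : Finset (Fin n) → ℂ) :
    ∑ x, ‖∑ S, a S * ch S x‖ ^ 2 = (2 : ℝ) ^ n * ∑ S, ‖a S‖ ^ 2 := by
  have h : ((∑ x, ‖∑ S, a S * ch S x‖ ^ 2 : ℝ) : ℂ) =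
      (((2 : ℝ) ^ n * ∑ S, ‖a S‖ ^ 2 : ℝ) : ℂ) := by
    push_cast
    have h1 : ∀ x, ((‖∑ S, a S * ch S x‖ : ℂ)) ^ 2 =
        ∑ S, ∑ T, (a S * star (a T)) * (ch S x * ch T x) := by
      intro x
      rw [← Complex.mul_conj', map_sum, sum_mul_sum]
      refine sum_congr rfl fun S _ => sum_congr rfl fun T _ => ?_
      rw [map_mul]
      have : (starRingEnd ℂ) (ch T x) = ch T x := star_ch T x
      rw [this]
      have h2 : (starRingEnd ℂ) (a T) = star (a T) := rfl
      rw [h2]
      ring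
    simp only [h1]
    rw [sum_comm]
    have h2 : ∀ S : Finset (Fin n), ∑ x, ∑ T, (a S * star (a T)) * (ch S x * ch T x) =
        (2 : ℂ) ^ n * (‖a S‖ : ℂ) ^ 2 := by
      intro S
      rw [sum_comm]
      have h3 : ∀ T : Finset (Fin n), ∑ x, (a S * star (a T)) * (ch S x * ch T x) =
          if S = T then (a S * star (a T)) * (2 : ℂ) ^ n else 0 := by
        intro T
        rw [← mul_sum, sum_ch_mul]
        split_ifs <;> simp
      simp only [h3]
      rw [sum_ite_eq, if_pos (mem_univ S), ← Complex.mul_conj']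
      have h4 : (starRingEnd ℂ) (a S) = star (a S) := rfl
      rw [h4]
      ring
    simp only [h2]
    rw [← mul_sum]
  exact_mod_cast h

/-- The space of functions of degree at most `k`. -/
noncomputable def D (n k : ℕ) : Submodule ℂ ((Fin n → Bool) → ℂ) :=
  Submodule.span ℂ (Set.range (fun S : {S : Finset (Fin n) // S.card ≤ k} => ch S.1))

lemma ch_mem_D {k : ℕ} {S : Finset (Fin n)} (h : S.card ≤ k) : ch S ∈ D n k :=
  Submodule.subset_span ⟨⟨S, h⟩, rfl⟩

lemma ch_mul_ch (S T : Finset (Fin n)) : ch S * ch T = ch (symmDiff S T) := by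
  funext x
  simp only [Pi.mul_apply]
  unfold ch
  have h1 : S = (S \ T) ∪ (S ∩ T) := (sdiff_union_inter S T).symm
  have h2 : T = (T \ S) ∪ (S ∩ T) := by
    rw [inter_comm]; exact (sdiff_union_inter T S).symm
  have hd1 : Disjoint (S \ T) (S ∩ T) := disjoint_sdiff_inter S T
  have hd2 : Disjoint (T \ S) (S ∩ T) := by
    rw [inter_comm]; exact disjoint_sdiff_inter T S
  have hd3 : Disjoint (S \ T) (T \ S) := disjoint_sdiff_sdiff
  have e1 : ∏ i ∈ S, (if x i then (1 : ℂ) else -1) =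
      (∏ i ∈ S \ T, (if x i then (1 : ℂ) else -1)) * ∏ i ∈ S ∩ T, (if x i then (1 : ℂ) else -1) := by
    conv_lhs => rw [h1]
    rw [prod_union hd1]
  have e2 : ∏ i ∈ T, (if x i then (1 : ℂ) else -1) =
      (∏ i ∈ T \ S, (if x i then (1 : ℂ) else -1)) * ∏ i ∈ S ∩ T, (if x i then (1 : ℂ) else -1) := by
    conv_lhs => rw [h2]
    rw [prod_union hd2]
  have e3 : symmDiff S T = (S \ T) ∪ (T \ S) := rfl
  rw [e1, e2, e3, prod_union hd3]
  have e4 := ch_sq (S ∩ T) x
  unfold ch at e4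
  linear_combination (∏ i ∈ S \ T, (if x i then (1 : ℂ) else -1)) *
    (∏ i ∈ T \ S, (if x i then (1 : ℂ) else -1)) * e4

lemma mul_mem_D {k l : ℕ} {u v : (Fin n → Bool) → ℂ} (hu : u ∈ D n k) (hv : v ∈ D n l) :
    u * v ∈ D n (k + l) := by
  have h : D n k * D n l ≤ D n (k + l) := by
    unfold D
    rw [Submodule.span_mul_span, Submodule.span_le]
    rintro _ ⟨_, ⟨S, rfl⟩, _, ⟨T, rfl⟩, rfl⟩
    simp only
    rw [ch_mul_ch]
    apply Submodule.subset_span
    refine ⟨⟨symmDiff S.1 T.1, ?_⟩, rfl⟩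
    have h1 : (symmDiff S.1 T.1).card ≤ S.1.card + T.1.card := by
      have : symmDiff S.1 T.1 ⊆ S.1 ∪ T.1 := by
        intro i hi
        rw [mem_symmDiff] at hi
        rw [mem_union]
        tauto
      exact (card_le_card this).trans (card_union_le _ _)
    have := S.2
    have := T.2
    omega
  exact h (Submodule.mul_mem_mul hu hv)

lemma star_mem_D {k : ℕ} {u : (Fin n → Bool) → ℂ} (hu : u ∈ D n k) : star u ∈ D n k := by
  unfold D at hu ⊢
  rw [Submodule.mem_span_range_iff_exists_fun] at hu ⊢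
  obtain ⟨c, rfl⟩ := hu
  refine ⟨fun S => star (c S), ?_⟩
  funext x
  simp only [Finset.sum_apply, Pi.smul_apply, Pi.star_apply, smul_eq_mul, star_sum, star_mul']
  refine sum_congr rfl fun S _ => ?_
  rw [star_ch]

lemma one_mem_D : (1 : (Fin n → Bool) → ℂ) ∈ D n 0 := by
  have : (1 : (Fin n → Bool) → ℂ) = ch (∅ : Finset (Fin n)) := by
    funext x; simp [ch]
  rw [this]
  exact ch_mem_D (by simp)

lemma pow_mem_D {k : ℕ} {u : (Fin n → Bool) → ℂ} (hu : u ∈ D n k) (j : ℕ) :
    u ^ j ∈ D n (k * j) := by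
  induction j with
  | zero => simpa using one_mem_D
  | succ j ih =>
    rw [pow_succ, Nat.mul_succ]
    exact mul_mem_D ih hu

lemma sum_mem_D {d : ℕ} (c : Finset (Fin n) → ℂ) (hc : ∀ S, d < S.card → c S = 0) :
    (fun x => ∑ S, c S * ch S x) ∈ D n d := by
  have h : (fun x => ∑ S, c S * ch S x) = ∑ S, c S • ch S := by
    funext x
    simp [Finset.sum_apply]
  rw [h]
  apply Submodule.sum_mem
  intro S _
  by_cases hS : d < S.card
  · rw [hc S hS, zero_smul]; exact Submodule.zero_mem _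
  · exact Submodule.smul_mem _ _ (ch_mem_D (not_lt.1 hS))

lemma sum_filter_subtype (k : ℕ) (g : Finset (Fin n) → ℂ) :
    ∑ S : {S : Finset (Fin n) // S.card ≤ k}, g S.1 =
      ∑ S ∈ univ.filter (fun S : Finset (Fin n) => S.card ≤ k), g S := by
  symm
  apply Finset.sum_subtype
  simp

/-- The Dirichlet form of a function of degree at most `k`. -/
lemma dirichlet_le {k : ℕ} {u : (Fin n → Bool) → ℂ} (hu : u ∈ D n k) :
    ∑ i, ∑ x, ‖u x - u (flp i x)‖ ^ 2 ≤ 4 * k * ∑ x, ‖u x‖ ^ 2 := by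
  unfold D at hu
  rw [Submodule.mem_span_range_iff_exists_fun] at hu
  obtain ⟨c, hc⟩ := hu
  -- extend the coefficients by zero
  set a : Finset (Fin n) → ℂ := fun S => if h : S.card ≤ k then c ⟨S, h⟩ else 0 with ha
  have hau : ∀ x, u x = ∑ S, a S * ch S x := by
    intro x
    rw [← hc]
    simp only [Finset.sum_apply, Pi.smul_apply, smul_eq_mul]
    have h1 : ∑ S : {S : Finset (Fin n) // S.card ≤ k}, c S * ch S.1 x =
        ∑ S : {S : Finset (Fin n) // S.card ≤ k}, a S.1 * ch S.1 x := by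
      refine sum_congr rfl fun S _ => ?_
      simp only [ha]
      rw [dif_pos S.2]
    rw [h1]
    rw [sum_filter_subtype k (fun S => a S * ch S x)]
    apply sum_subset (subset_univ _)
    intro S _ hS
    have : ¬ S.card ≤ k := fun h => hS (by simp [h])
    simp only [ha]
    rw [dif_neg this, zero_mul]
  have h0 : ∑ x, ‖u x‖ ^ 2 = (2 : ℝ) ^ n * ∑ S, ‖a S‖ ^ 2 := by
    rw [← parseval a]
    exact sum_congr rfl fun x _ => by rw [hau]
  have h1 : ∀ i, ∑ x, ‖u x - u (flp i x)‖ ^ 2 =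
      (2 : ℝ) ^ n * ∑ S, ‖(if i ∈ S then 2 * a S else 0 : ℂ)‖ ^ 2 := by
    intro i
    rw [← parseval]
    refine sum_congr rfl fun x _ => ?_
    rw [hau, hau, ← sum_sub_distrib]
    congr 3
    funext S
    rw [ch_flp]
    split_ifs <;> ring
  simp only [h1, h0]
  rw [← mul_sum, sum_comm]
  have h2 : ∀ S : Finset (Fin n), ∑ i, ‖(if i ∈ S then 2 * a S else 0 : ℂ)‖ ^ 2 =
      4 * (S.card : ℝ) * ‖a S‖ ^ 2 := by
    intro S
    have h3 : ∀ i, ‖(if i ∈ S then 2 * a S else 0 : ℂ)‖ ^ 2 =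
        if i ∈ S then 4 * ‖a S‖ ^ 2 else 0 := by
      intro i
      split_ifs
      · rw [norm_mul]; norm_num; ring
      · simp
    simp only [h3]
    rw [sum_ite_mem, univ_inter, sum_const, nsmul_eq_mul]
    ring
  simp only [h2]
  have h4 : ∑ S, 4 * (S.card : ℝ) * ‖a S‖ ^ 2 ≤ 4 * (k : ℝ) * ∑ S, ‖a S‖ ^ 2 := by
    rw [mul_sum]
    refine sum_le_sum fun S _ => ?_
    by_cases hS : S.card ≤ k
    · have : (S.card : ℝ) ≤ k := by exact_mod_cast hS
      have h5 := sq_nonneg ‖a S‖
      nlinarith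
    · simp only [ha]
      rw [dif_neg hS]
      simp
  have h6 : (0 : ℝ) ≤ 2 ^ n := by positivity
  calc (2 : ℝ) ^ n * ∑ S, 4 * (S.card : ℝ) * ‖a S‖ ^ 2
      ≤ 2 ^ n * (4 * (k : ℝ) * ∑ S, ‖a S‖ ^ 2) := mul_le_mul_of_nonneg_left h4 h6
    _ = 4 * k * (2 ^ n * ∑ S, ‖a S‖ ^ 2) := by ring

end Pool.Agent.Helper54.MB
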